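import Pool.Agent.Helper46.MR.KMain
import Pool.Agent.Helper46.MR.Chains
import Pool.Agent.Helper43.SN.Basic
import Pool.Agent.Helper58.LB.Symm

set_option autoImplicit false

/-!
# SN: from linkings to chain partitions

`Lk d n k S π`: the chains of `S` link the element `x` of level `k` (bottom) with the element
`cm n (π x)` of the level `mn - k` (top), `m = d + 2`, `k ≤ n`.
-/

namespace Pool.Agent.Helper46.SN

open Finset Pool.Agent.Helper30.SC Pool.Agent.Helper46.MR Pool.Agent.Helper46.MR.ChainsAux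
  Pool.Agent.Helper43.SN

variable {d n k : ℕ}

/-- the linking of a family of chains of the ranks `k, ..., mn - k` -/
def Lk (d n k : ℕ) (S : Set (Set (Fin (d + 2) → ℕ))) (π : Equiv.Perm (Vt d k)) : Prop :=
  ∀ x : Vt d k, ∃ C ∈ S, x.1 ∈ C ∧ cm n (π x).1 ∈ C

theorem two_mul_le (h : k + 1 ≤ n) : 2 * k + 2 ≤ (d + 2) * n := by
  nlinarith [Nat.zero_le (d * n)]

theorem mem_V' (h : k ≤ n) {a : Fin (d + 2) → ℕ} : a ∈ V d k ↔ a ∈ LL (d + 2) n ∧ rk a = k := by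
  rw [← P_eq_V h, mem_P']

theorem mem_lower_of_le {x y : Fin (d + 2) → ℕ} (hx : x ∈ V d k) (hy : y ∈ V d (k + 1))
    (h : x ≤ y) : x ∈ lower y := by
  obtain ⟨i, rfl⟩ := (le_iff_cover hx hy).1 h
  exact mem_lower.2 ⟨i, rfl⟩

/-- one step down -/
theorem lstep_fam (hn : k + 1 ≤ n) {S : Set (Set (Fin (d + 2) → ℕ))}
    (hS : Fam (d + 2) n 0 (k + 1) S) {π : Equiv.Perm (Vt d (k + 1))}
    (hπ : Lk d n (k + 1) S π) {π' : Equiv.Perm (Vt d k)} (F G : Vt d k ↪ Vt d (k + 1))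
    (hF : ∀ x, x.1 ≤ (F x).1) (hG : ∀ x, x.1 ≤ (G x).1) (hFG : ∀ x, π (F x) = G (π' x)) :
    ∃ S', Fam (d + 2) n 0 k S' ∧ Lk d n k S' π' := by
  classical
  have hk : 2 * k + 2 ≤ (d + 2) * n := two_mul_le hn
  have hP : P (d + 2) n k = V d k := P_eq_V (by omega)
  have hP1 : P (d + 2) n (k + 1) = V d (k + 1) := P_eq_V hn
  set f : (Fin (d + 2) → ℕ) → (Fin (d + 2) → ℕ) :=
    fun x => if h : x ∈ V d k then (F ⟨x, h⟩).1 else x with hf
  set g : (Fin (d + 2) → ℕ) → (Fin (d + 2) → ℕ) :=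
    fun x => if h : x ∈ V d k then (G ⟨x, h⟩).1 else x with hg
  have hfF : ∀ x : Vt d k, f x.1 = (F x).1 := by
    intro x
    simp only [hf, x.2, dif_pos]
  have hgG : ∀ x : Vt d k, g x.1 = (G x).1 := by
    intro x
    simp only [hg, x.2, dif_pos]
  have hfM : Mat (d + 2) n k f := by
    unfold Mat
    rw [hP, hP1]
    refine ⟨fun x hx => ?_, fun x hx y hy e => ?_⟩
    · rw [hfF ⟨x, hx⟩]
      exact ⟨(F ⟨x, hx⟩).2, mem_lower_of_le hx (F ⟨x, hx⟩).2 (hF ⟨x, hx⟩)⟩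
    · have hx' : x ∈ V d k := by exact_mod_cast hx
      have hy' : y ∈ V d k := by exact_mod_cast hy
      rw [hfF ⟨x, hx'⟩, hfF ⟨y, hy'⟩] at e
      exact congrArg Subtype.val (F.injective (Subtype.ext e))
  have hgM : Mat (d + 2) n k g := by
    unfold Mat
    rw [hP, hP1]
    refine ⟨fun x hx => ?_, fun x hx y hy e => ?_⟩
    · rw [hgG ⟨x, hx⟩]
      exact ⟨(G ⟨x, hx⟩).2, mem_lower_of_le hx (G ⟨x, hx⟩).2 (hG ⟨x, hx⟩)⟩
    · have hx' : x ∈ V d k := by exact_mod_cast hx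
      have hy' : y ∈ V d k := by exact_mod_cast hy
      rw [hgG ⟨x, hx'⟩, hgG ⟨y, hy'⟩] at e
      exact congrArg Subtype.val (G.injective (Subtype.ext e))
  -- the image of a linked pair
  have key : ∀ x : Vt d k, ∃ C ∈ S, (F x).1 ∈ C ∧ cm n (G (π' x)).1 ∈ C := by
    intro x
    obtain ⟨C, hC, h1, h2⟩ := hπ (F x)
    rw [hFG] at h2
    exact ⟨C, hC, h1, h2⟩
  have hkn : k ≤ n := by omega
  have hfam := step_aux (k₀ := 0) hk hfM hgM hS (fun _ C hC => by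
    constructor
    · rintro ⟨x, hx, hx1, hx2⟩
      rw [ret_bot hx1] at hx2
      have hxP : x ∈ V d k := (mem_V' hkn).2 ⟨hx, hx1⟩
      rw [hfF ⟨x, hxP⟩] at hx2
      obtain ⟨C', hC', c1, c2⟩ := key ⟨x, hxP⟩
      obtain ⟨q1, q2⟩ := (mem_V' hkn).1 (π' ⟨x, hxP⟩).2
      have q3 := rk_cm (n := n) q1.2
      refine ⟨cm n (π' ⟨x, hxP⟩).1, cm_mem q1, by omega, ?_⟩
      rw [ret_top hk (by omega), cm_cm q1.2, hgG, hS.un _ C hC C' hC' hx2 c1]
      exact c2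
    · rintro ⟨z, hz, hz1, hz2⟩
      rw [ret_top hk hz1] at hz2
      have q3 := rk_cm (n := n) hz.2
      have hczP : cm n z ∈ V d k := (mem_V' hkn).2 ⟨cm_mem hz, by omega⟩
      obtain ⟨x, hx⟩ := π'.surjective ⟨cm n z, hczP⟩
      obtain ⟨C', hC', c1, c2⟩ := key x
      rw [hgG ⟨cm n z, hczP⟩, ← hx] at hz2
      obtain ⟨q1, q2⟩ := (mem_V' hkn).1 x.2
      refine ⟨x.1, q1, q2, ?_⟩
      rw [ret_bot q2, hfF, hS.un _ C hC C' hC' hz2 c2]
      exact c1)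
  refine ⟨_, hfam, fun x => ?_⟩
  obtain ⟨C, hC, c1, c2⟩ := key x
  obtain ⟨q1, q2⟩ := (mem_V' hkn).1 x.2
  obtain ⟨p1, p2⟩ := (mem_V' hkn).1 (π' x).2
  have p3 := rk_cm (n := n) p1.2
  refine ⟨_, ⟨C, hC, rfl⟩, ⟨q1, by omega, by omega, ?_⟩, ⟨cm_mem p1, by omega, by omega, ?_⟩⟩
  · rw [ret_bot q2, hfF]
    exact c1
  · rw [ret_top hk (by omega), cm_cm p1.2, hgG]
    exact c2

/-- a symmetric family of chains has a linking -/
theorem exists_link (hkn : k ≤ n) {S : Set (Set (Fin (d + 2) → ℕ))}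
    (hS : Fam (d + 2) n 0 k S) : ∃ π : Equiv.Perm (Vt d k), Lk d n k S π := by
  classical
  have hs : 2 * k ≤ (d + 2) * n := by nlinarith [Nat.zero_le (d * n)]
  have hex : ∀ y : Vt d k, ∃ z : Vt d k, ∃ C ∈ S, y.1 ∈ C ∧ cm n z.1 ∈ C := by
    intro y
    obtain ⟨hy1, hy2⟩ := (mem_V' hkn).1 y.2
    obtain ⟨C, hC, hC1⟩ := hS.ex y.1 hy1 (by omega) (by omega)
    obtain ⟨i, j, h1, h2, h3, h4, h5, h6⟩ := hS.rg C hC
    have h7 := h4 y.1 hC1
    obtain ⟨z, hz, hz1⟩ := h5 j h2 le_rfl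
    have hzL := hS.sub C hC hz
    have h8 := rk_cm (n := n) hzL.2
    refine ⟨⟨cm n z, (mem_V' hkn).2 ⟨cm_mem hzL, by omega⟩⟩, C, hC, hC1, ?_⟩
    have e : cm n (cm n z) = z := cm_cm hzL.2
    change cm n (cm n z) ∈ C
    rw [e]
    exact hz
  choose l hl using hex
  have hinj : Function.Injective l := by
    intro y y' e
    obtain ⟨C, hC, c1, c2⟩ := hl y
    obtain ⟨C', hC', c1', c2'⟩ := hl y'
    rw [← e] at c2'
    have e2 := hS.un _ C hC C' hC' c2 c2'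
    subst e2
    have r1 := ((mem_V' hkn).1 y.2).2
    have r2 := ((mem_V' hkn).1 y'.2).2
    exact Subtype.ext (le_antisymm (hS.ch C hC _ c1 _ c1' (by omega))
      (hS.ch C hC _ c1' _ c1 (by omega)))
  exact ⟨Equiv.ofBijective l (Finite.injective_iff_bijective.1 hinj), hl⟩

/-- prolongation to all ranks -/
theorem fam_of_ext : ∀ k : ℕ, k ≤ n → ∀ (S : Set (Set (Fin (d + 2) → ℕ))),
    Fam (d + 2) n 0 k S → ∀ π : Equiv.Perm (Vt d k), Lk d n k S π → Ext d k π →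
      ∃ S', Fam (d + 2) n 0 0 S' := by
  intro k
  induction k with
  | zero =>
    intro _ S hS _ _ _
    exact ⟨S, hS⟩
  | succ k ih =>
    intro hk S hS π hπ hE
    obtain ⟨f, g, π', hf, hg, hfg, hE'⟩ := hE
    obtain ⟨S', hS', hL'⟩ := lstep_fam hk hS hπ f g hf hg hfg
    exact ih (by omega) S' hS' π' hL' hE'

/-- Change of `k₀`: a family of chains of the ranks `s, ..., mn - s` with `k₀ = s` is symmetric. -/
theorem fam_zero {m s : ℕ} {S : Set (Set (Fin m → ℕ))} (hS : Fam m n s s S) : Fam m n 0 s S :=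
  ⟨hS.sub, hS.ch, fun C hC => by
    obtain ⟨i, j, h1, h2, h3, h4, h5, h6⟩ := hS.rg C hC
    exact ⟨i, j, h1, h2, h3, h4, h5, Or.inl (by omega)⟩, hS.ex, hS.un⟩

/-- the final form of a chain partition of all ranks -/
theorem sco_of_fam {m : ℕ} {S : Set (Set (Fin m → ℕ))} (hS : Fam m n 0 0 S) :
    (∀ C ∈ S,
        C ⊆ {a : Fin m → ℕ | Monotone a ∧ ∀ i, a i ≤ n} ∧
        IsChain (· ≤ ·) C ∧
        Set.InjOn (fun a : Fin m → ℕ => ∑ i, a i) C ∧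
        ∃ i j : ℕ, i ≤ j ∧ (fun a : Fin m → ℕ => ∑ i, a i) '' C = Set.Icc i j ∧
          i + j = m * n) ∧
      ∀ a : Fin m → ℕ, Monotone a → (∀ i, a i ≤ n) →
        ∃! C : Set (Fin m → ℕ), C ∈ S ∧ a ∈ C := by
  refine ⟨fun C hC => ⟨hS.sub C hC, ?_, ?_, ?_⟩, ?_⟩
  · intro a ha b hb _
    rcases Nat.le_total (rk a) (rk b) with h | h
    · exact Or.inl (hS.ch C hC a ha b hb h)
    · exact Or.inr (hS.ch C hC b hb a ha h)
  · intro a ha b hb e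
    have e' : rk a = rk b := e
    exact le_antisymm (hS.ch C hC a ha b hb e'.le) (hS.ch C hC b hb a ha e'.ge)
  · obtain ⟨i, j, _, h2, h3, h4, h5, h6⟩ := hS.rg C hC
    refine ⟨i, j, h2, ?_, by omega⟩
    ext t
    constructor
    · rintro ⟨a, ha, rfl⟩
      exact h4 a ha
    · rintro ⟨ht1, ht2⟩
      obtain ⟨a, ha, ha1⟩ := h5 t ht1 ht2
      exact ⟨a, ha, ha1⟩
  · intro a ha1 ha2
    have haL : a ∈ LL m n := ⟨ha1, ha2⟩
    obtain ⟨C, hC, haC⟩ := hS.ex a haL (Nat.zero_le _) (rk_le haL)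
    exact ⟨C, ⟨hC, haC⟩, fun C' hC' => hS.un a C' hC'.1 C hC hC'.2 haC⟩

/-- The conclusion for one `n`: if the condition (K) holds from the level `n` on, and every linking
at level `n` is extendable, then `L(d+2,n)` is a symmetric chain order. -/
theorem sco (hK : ∀ k, n ≤ k → 2 * k + 2 ≤ (d + 2) * n → K (d + 2) n k)
    (hE : ∀ π : Equiv.Perm (Vt d n), Ext d n π) : Pool.LS.SCO (d + 2) n := by
  have h1 : n ≤ (d + 2) * n / 2 := by
    rw [Nat.le_div_iff_mul_le (by norm_num)]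
    nlinarith [Nat.zero_le (d * n)]
  obtain ⟨S, hS⟩ := fam_all (k₀ := n) hK ((d + 2) * n / 2 - n) n (by omega)
  have hS' := fam_zero hS
  obtain ⟨π, hπ⟩ := exists_link le_rfl hS'
  obtain ⟨S', hS''⟩ := fam_of_ext n le_rfl S hS' π hπ (hE π)
  obtain ⟨hA, hB⟩ := sco_of_fam hS''
  refine ⟨S', fun C hC => ?_, hB⟩
  obtain ⟨c1, c2, c3, i, j, hij, c4, c5⟩ := hA C hC
  refine ⟨c1, c2, c3, i, ?_⟩
  rw [c4]
  congr 1
  omega

/-- The final statement, from THEOREM X. -/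
theorem final (hX : ∀ d : ℕ, 3 ≤ d → ∃ n₁ : ℕ, ∀ n : ℕ, n₁ ≤ n →
    ∀ π : Equiv.Perm (Vt d n), Ext d n π) :
    ∀ m : ℕ, 5 ≤ m → ∃ n₀ : ℕ, ∀ n : ℕ, n₀ ≤ n → Pool.LS.SCO m n ∧ Pool.LS.SCO n m := by
  intro m hm
  obtain ⟨d, rfl⟩ : ∃ d, m = d + 2 := ⟨m - 2, by omega⟩
  obtain ⟨n₁, h₁⟩ := hX d (by omega)
  obtain ⟨k₀, h₀⟩ := kmain (m := d + 2) (by omega)
  refine ⟨max n₁ k₀, fun n hn => ?_⟩
  have h := sco (n := n) (fun k h1 h2 => h₀ n k (by omega) h2) (h₁ n (by omega))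
  exact ⟨h, Pool.LS.sco_symm _ _ h⟩

end Pool.Agent.Helper46.SN
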